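import Pool.Agent.U937.DC.Comp

/-!
# Double coset membership for relatively quasi-convex and parabolic subgroups is decidable

Let `π` be hyperbolic relative to finitely generated abelian subgroups `P_i` and let `⟨Y⟩` be relatively quasi-convex. We
reduce the question whether `w ∈ P_i ⟨Y⟩` to the membership problem for a subgroup: in the centralizer extension
`π' = π *_(P_i) (P_i × ⟨t⟩)` one has `w ∈ P_i ⟨Y⟩` if and only if `w⁻¹ t w ∈ ⟨Y, t⟩` (parts (1) and (2), for all groups and
all finite presentations; the proof uses Britton's lemma). By the combination theorems of Dahmani, Osin, Bigdely and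
Wise `π'` is again hyperbolic relative to abelian subgroups, and `⟨Y, t⟩` is relatively quasi-convex. If `w⁻¹ t w` is not in
`⟨Y, t⟩` then by theorems of Manning, Martinez-Pedroza, Agol, Groves and Osin this is seen in a hyperbolic Dehn filling of
`π'` in which the `m`-th powers of the generators of the parabolic subgroups are killed, and in hyperbolic groups
membership in quasi-convex subgroups is decidable. So both `w ∈ P_i ⟨Y⟩` and, for the inputs of Q1, `w ∉ P_i ⟨Y⟩` are
recursively enumerable, uniformly, and there is an algorithm (part (3)). The published theorems are the hypotheses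
`Known`.
-/

set_option autoImplicit false

namespace Pool.Agent.Results.MP_77fd2d_al.DecidableDoubleCosets

open Pool.Agent.U937.DC

/-- **The double coset problem.** (1) For subgroups `P`, `H` of a group `G` the element `w` is in `P H` if and only if
`w⁻¹ t w` is in `⟨H, t⟩` in `⟨G, t ∣ [t, P] = 1⟩`. (2) The same for decorated presentations. (3) With the published theorems
`Known`: the algorithm of Q1 exists. -/
theorem result :
    (∀ (G : Type) [Group G] (P H : Subgroup G) (w : G), (∃ p ∈ P, ∃ q ∈ H, w = p * q) ↔
      HNNExtension.of w⁻¹ * (HNNExtension.t : Ext P) * HNNExtension.of w ∈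
        Subgroup.closure ((HNNExtension.of '' (H : Set G)) ∪ {(HNNExtension.t : Ext P)})) ∧
    (∀ I : Input, WFI I → (InDoubleCoset I ↔ Mem ((ext I.1 I.2.2.1).1, gens I, conj I))) ∧
    (Known → Algorithm) := by
  refine ⟨fun G _ P H w => ⟨?_, double_coset P H w⟩, ?_, algorithm⟩
  · rintro ⟨p, hp, q, hq, rfl⟩
    have h1 := t_comm P p hp
    have h2 : HNNExtension.of (p * q)⁻¹ * (HNNExtension.t : Ext P) * HNNExtension.of (p * q) =
        (HNNExtension.of q)⁻¹ * HNNExtension.t * HNNExtension.of q := by
      rw [map_inv, map_mul, mul_inv_rev, mul_assoc, ← mul_assoc HNNExtension.t, h1]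
      group
    rw [h2]
    have hq' : (HNNExtension.of q : Ext P) ∈
        Subgroup.closure ((HNNExtension.of '' (H : Set G)) ∪ {(HNNExtension.t : Ext P)}) :=
      Subgroup.subset_closure (Or.inl ⟨q, hq, rfl⟩)
    exact Subgroup.mul_mem _ (Subgroup.mul_mem _ (Subgroup.inv_mem _ hq')
      (Subgroup.subset_closure (Or.inr rfl))) hq'
  · rintro ⟨D, Y, i, w⟩ h
    exact ⟨fun hc => mem_of_coset D Y i w h.deco h.gens h.word h.index hc _ fun _ hr => hr,
      fun hm => coset_of_mem D Y i w h.deco h.gens h.word h.index hm⟩

end Pool.Agent.Results.MP_77fd2d_al.DecidableDoubleCosets
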